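import Pool.Agent.H39.TTI

set_option autoImplicit false
set_option linter.unusedVariables false

/-!
# The supercongruences for `∑ binom(2k,k)² T_{2k}(b,1) / 256^k`, `b = 18` and `b = 30` (complete answer to Q1 and Q2)

The proof: with `M = b² - 4` and `M s = (1 + 8 s)²`, the product of the sum by `s^((p-1)/2)` is, modulo `p²`, a
polynomial in `s` whose coefficients satisfy a recurrence; it is compared modulo `p²` with two truncated cubic
hypergeometric sums whose arguments are rational functions of `s`. These are evaluated at the CM points of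
discriminants `-120` and `-168` by lifting the Frobenius.
-/

open Finset

namespace Pool.Agent.Results.MP_4af24b_nt.EighteenThirty

/-- `T_n(b,c)`, the coefficient of `x^n` in `(x² + b x + c)^n` -/
def T (b c : ℤ) (n : ℕ) : ℤ :=
  ∑ j ∈ range (n / 2 + 1), (n.choose (2 * j) : ℤ) * ((2 * j).choose j : ℤ) * b ^ (n - 2 * j) * c ^ j

/-- the sum `S_b(p) = ∑_{k<p} binom(2k,k)² T_{2k}(b,1) / 256^k` -/
def S (b : ℤ) (p : ℕ) : ℚ := ∑ k ∈ range p, ((2 * k).choose k : ℚ) ^ 2 * (T b 1 (2 * k) : ℚ) / 256 ^ k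

/-- congruence modulo `p²` of rational numbers: `(a - b) / p²` has denominator prime to `p` -/
def Cong (p : ℕ) (a b : ℚ) : Prop := p.Coprime ((a - b) / (p : ℚ) ^ 2).den

open Pool.Agent.H546 Pool.Agent.H39 Pool.Agent.H39.TT Pool.Agent.H578.CM

theorem T_eq (b : ℤ) (k : ℕ) : T b 1 (2 * k) = T2 b k := by
  unfold T T2
  rw [show 2 * k / 2 = k by omega]
  refine sum_congr rfl fun j _ => ?_
  rw [one_pow, mul_one]

theorem S_eq (b : ℤ) (p : ℕ) : (256 : ℚ) ^ (p - 1) * S b p = ((NS b p : ℤ) : ℚ) := by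
  unfold S NS
  rw [mul_sum]
  push_cast
  refine sum_congr rfl fun k hk => ?_
  rw [mem_range] at hk
  have e1 : (256 : ℚ) ^ (p - 1) = 256 ^ (p - 1 - k) * 256 ^ k := by rw [← pow_add]; congr 1; omega
  have h4 : (256 : ℚ) ^ k ≠ 0 := by positivity
  rw [e1, T_eq]
  field_simp

theorem cong_of (p : ℕ) (hp : p.Prime) (h2 : p ≠ 2) {b c : ℤ} (h : (p : ℤ) ^ 2 ∣ NS b p - 256 ^ (p - 1) * c) {e : ℚ}
    (he : e = (c : ℚ)) : Cong p (S b p) e := by
  obtain ⟨d, hd⟩ := h
  subst he
  refine cop_of_eq (n := d) (d := 256 ^ (p - 1)) ?_ ?_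
  · have hq := congrArg (Int.cast : ℤ → ℚ) hd
    push_cast at hq ⊢
    rw [← S_eq] at hq
    have hp0 : (p : ℚ) ≠ 0 := by exact_mod_cast hp.ne_zero
    have h4 : (256 : ℚ) ^ (p - 1) ≠ 0 := by positivity
    rw [div_eq_div_iff (pow_ne_zero 2 hp0) h4]
    linear_combination hq
  · have e1 : ((256 : ℤ) ^ (p - 1)).natAbs = 256 ^ (p - 1) := by rw [Int.natAbs_pow]; rfl
    rw [e1]
    apply Nat.Coprime.pow_right
    rw [show (256 : ℕ) = 2 ^ 8 by norm_num]
    apply Nat.Coprime.pow_right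
    exact (Nat.coprime_primes hp Nat.prime_two).mpr h2

instance f3 : Fact (Nat.Prime 3) := ⟨by norm_num⟩
instance f5 : Fact (Nat.Prime 5) := ⟨by norm_num⟩
instance f7 : Fact (Nat.Prime 7) := ⟨by norm_num⟩

theorem z5 : ((-30 : ℤ) : ZMod 5) = 0 := by decide
theorem z7 : ((-42 : ℤ) : ZMod 7) = 0 := by decide

/-- the square of an integer through the absolute value -/
theorem nat_sq (x : ℤ) : ∃ a : ℕ, x ^ 2 = (a : ℤ) ^ 2 := ⟨x.natAbs, by simp⟩

theorem result (p : ℕ) [hp : Fact p.Prime] (h3 : 3 < p) :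
    -- Q1
    ((legendreSym p 2 = 1 → legendreSym 3 p = 1 → legendreSym 5 p = 1 → ∀ x y : ℤ, (p : ℤ) = x ^ 2 + 30 * y ^ 2 →
        Cong p (S 18 p) (4 * (x : ℚ) ^ 2 - 2 * p)) ∧
      (legendreSym 3 p = 1 → legendreSym p 2 = -1 → legendreSym 5 p = -1 → ∀ x y : ℤ, (p : ℤ) = 3 * x ^ 2 + 10 * y ^ 2 →
        Cong p (S 18 p) (12 * (x : ℚ) ^ 2 - 2 * p)) ∧
      (legendreSym p 2 = 1 → legendreSym 3 p = -1 → legendreSym 5 p = -1 → ∀ x y : ℤ, (p : ℤ) = 2 * x ^ 2 + 15 * y ^ 2 →
        Cong p (S 18 p) (2 * p - 8 * (x : ℚ) ^ 2)) ∧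
      (legendreSym 5 p = 1 → legendreSym p 2 = -1 → legendreSym 3 p = -1 → ∀ x y : ℤ, 2 * (p : ℤ) = 3 * x ^ 2 + 10 * y ^ 2 →
        Cong p (S 18 p) (2 * p - 6 * (x : ℚ) ^ 2)) ∧
      (legendreSym p (-30) = -1 → Cong p (S 18 p) 0)) ∧
    -- Q2
    ((legendreSym p (-2) = 1 → legendreSym 3 p = 1 → legendreSym 7 p = 1 → ∀ x y : ℤ, (p : ℤ) = x ^ 2 + 42 * y ^ 2 →
        Cong p (S 30 p) (4 * (x : ℚ) ^ 2 - 2 * p)) ∧
      (legendreSym p (-2) = 1 → legendreSym 3 p = -1 → legendreSym 7 p = -1 → ∀ x y : ℤ, (p : ℤ) = 3 * x ^ 2 + 14 * y ^ 2 →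
        Cong p (S 30 p) (12 * (x : ℚ) ^ 2 - 2 * p)) ∧
      (legendreSym 7 p = 1 → legendreSym p (-2) = -1 → legendreSym 3 p = -1 → ∀ x y : ℤ, (p : ℤ) = 2 * x ^ 2 + 21 * y ^ 2 →
        Cong p (S 30 p) (2 * p - 8 * (x : ℚ) ^ 2)) ∧
      (legendreSym 3 p = 1 → legendreSym p (-2) = -1 → legendreSym 7 p = -1 → ∀ x y : ℤ, 2 * (p : ℤ) = 3 * x ^ 2 + 14 * y ^ 2 →
        Cong p (S 30 p) (2 * p - 6 * (x : ℚ) ^ 2)) ∧
      (legendreSym p (-42) = -1 → Cong p (S 30 p) 0)) := by
  have hpp := hp.out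
  have h2 : p ≠ 2 := by omega
  have n5 : ∀ e : ℤ, e ≠ 0 → legendreSym 5 p = e → p ≠ 5 := by
    rintro e he h rfl
    rw [← h] at he
    exact he (by decide)
  have n7 : ∀ e : ℤ, e ≠ 0 → legendreSym 7 p = e → p ≠ 7 := by
    rintro e he h rfl
    rw [← h] at he
    exact he (by decide)
  refine ⟨⟨?_, ?_, ?_, ?_, ?_⟩, ⟨?_, ?_, ?_, ?_, ?_⟩⟩
  · intro _ _ h5 x y h
    have hpb := n5 1 (by norm_num) h5
    have hP : 22 ≤ p := by
      by_contra hc
      obtain ⟨a, ha⟩ := nat_sq x
      obtain ⟨c, hc'⟩ := nat_sq y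
      rw [ha, hc'] at h
      have h' : p = a ^ 2 + 30 * c ^ 2 := by exact_mod_cast h
      have hc0 : c = 0 := by
        by_contra h0
        have : 1 ≤ c ^ 2 := Nat.one_le_pow _ _ (by omega)
        omega
      subst hc0
      have : p = a ^ 2 := by rw [h']; ring
      rw [this] at hpp
      exact Nat.Prime.not_prime_pow (le_refl 2) hpp
    exact cong_of p hpp h2 (F5.big1 h3 hpb hP (x := x) (y := y) (by rw [h]; ring)) (by push_cast; ring)
  · intro _ _ h5 x y h
    have hpb := n5 (-1) (by norm_num) h5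
    rcases Nat.lt_or_ge p 22 with hP | hP
    · obtain ⟨a, ha⟩ := nat_sq x
      obtain ⟨c, hc'⟩ := nat_sq y
      rw [ha, hc'] at h
      have ha' : (x : ℚ) ^ 2 = (a : ℚ) ^ 2 := by exact_mod_cast ha
      rw [ha']
      have h' : p = 3 * a ^ 2 + 10 * c ^ 2 := by exact_mod_cast h
      have hx : a ≤ 2 := by
        by_contra h1
        have : 3 ≤ a := by omega
        nlinarith [Nat.zero_le (c ^ 2)]
      have hy : c ≤ 1 := by
        by_contra h1
        have : 2 ≤ c := by omega
        nlinarith [Nat.zero_le (a ^ 2)]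
      interval_cases a <;> interval_cases c <;> norm_num at h' <;> subst h' <;> first
        | (exfalso; omega)
        | (exfalso; revert hpp; norm_num; done)
        | exact cong_of _ hpp h2 s18_13 (by norm_num)
    · exact cong_of p hpp h2 (F5.big3 h3 hpb hP (x := x) (y := y) (by rw [h]; ring)) (by push_cast; ring)
  · intro _ _ h5 x y h
    have hpb := n5 (-1) (by norm_num) h5
    rcases Nat.lt_or_ge p 22 with hP | hP
    · obtain ⟨a, ha⟩ := nat_sq x
      obtain ⟨c, hc'⟩ := nat_sq y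
      rw [ha, hc'] at h
      have ha' : (x : ℚ) ^ 2 = (a : ℚ) ^ 2 := by exact_mod_cast ha
      rw [ha']
      have h' : p = 2 * a ^ 2 + 15 * c ^ 2 := by exact_mod_cast h
      have hx : a ≤ 3 := by
        by_contra h1
        have : 4 ≤ a := by omega
        nlinarith [Nat.zero_le (c ^ 2)]
      have hy : c ≤ 1 := by
        by_contra h1
        have : 2 ≤ c := by omega
        nlinarith [Nat.zero_le (a ^ 2)]
      interval_cases a <;> interval_cases c <;> norm_num at h' <;> subst h' <;> first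
        | (exfalso; omega)
        | (exfalso; revert hpp; norm_num; done)
        | exact cong_of _ hpp h2 s18_17 (by norm_num)
    · exact cong_of p hpp h2 (F5.big2 h3 hpb hP (x := x) (y := y) (by rw [h]; ring)) (by push_cast; ring)
  · intro h5 _ _ x y h
    have hpb := n5 1 (by norm_num) h5
    obtain ⟨z, rfl⟩ : ∃ z, x = 2 * z := by
      refine ⟨x / 2, ?_⟩
      rcases Int.emod_two_eq_zero_or_one x with hx | hx
      · omega
      · exfalso
        obtain ⟨z, rfl⟩ : ∃ z, x = 2 * z + 1 := ⟨x / 2, by omega⟩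
        have : 2 * (p : ℤ) = 2 * (6 * z ^ 2 + 6 * z + 1 + 5 * y ^ 2) + 1 := by rw [h]; ring
        omega
    have h : (p : ℤ) = 6 * z ^ 2 + 5 * y ^ 2 := by linarith
    rcases Nat.lt_or_ge p 22 with hP | hP
    · obtain ⟨a, ha⟩ := nat_sq z
      obtain ⟨c, hc'⟩ := nat_sq y
      rw [ha, hc'] at h
      have ha' : ((2 * z : ℤ) : ℚ) ^ 2 = 4 * (a : ℚ) ^ 2 := by
        have : (z : ℚ) ^ 2 = (a : ℚ) ^ 2 := by exact_mod_cast ha
        rw [← this]; push_cast; ring
      rw [ha']
      have h' : p = 6 * a ^ 2 + 5 * c ^ 2 := by exact_mod_cast h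
      have hx : a ≤ 1 := by
        by_contra h1
        have : 2 ≤ a := by omega
        nlinarith [Nat.zero_le (c ^ 2)]
      have hy : c ≤ 2 := by
        by_contra h1
        have : 3 ≤ c := by omega
        nlinarith [Nat.zero_le (a ^ 2)]
      interval_cases a <;> interval_cases c <;> norm_num at h' <;> subst h' <;> first
        | (exfalso; omega)
        | (exfalso; revert hpp; norm_num; done)
        | exact cong_of _ hpp h2 s18_11 (by norm_num)
    · exact cong_of p hpp h2 (F5.big6 h3 hpb hP (x := z) (y := y) (by rw [h])) (by push_cast; ring)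
  · intro hl
    have hpb : p ≠ 5 := by
      rintro rfl
      have h0 : legendreSym 5 (-30) = 0 := (legendreSym.eq_zero_iff 5 (-30)).mpr z5
      rw [h0] at hl
      norm_num at hl
    exact cong_of p hpp h2 (F5.bigz h3 hpb (by norm_num at hl ⊢; exact hl)) (by norm_num)
  · intro _ _ h5 x y h
    have hpb := n7 1 (by norm_num) h5
    have hP : 26 ≤ p := by
      by_contra hc
      obtain ⟨a, ha⟩ := nat_sq x
      obtain ⟨c, hc'⟩ := nat_sq y
      rw [ha, hc'] at h
      have h' : p = a ^ 2 + 42 * c ^ 2 := by exact_mod_cast h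
      have hc0 : c = 0 := by
        by_contra h0
        have : 1 ≤ c ^ 2 := Nat.one_le_pow _ _ (by omega)
        omega
      subst hc0
      have : p = a ^ 2 := by rw [h']; ring
      rw [this] at hpp
      exact Nat.Prime.not_prime_pow (le_refl 2) hpp
    exact cong_of p hpp h2 (F7.big1 h3 hpb hP (x := x) (y := y) (by rw [h]; ring)) (by push_cast; ring)
  · intro _ _ h5 x y h
    have hpb := n7 (-1) (by norm_num) h5
    rcases Nat.lt_or_ge p 26 with hP | hP
    · obtain ⟨a, ha⟩ := nat_sq x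
      obtain ⟨c, hc'⟩ := nat_sq y
      rw [ha, hc'] at h
      have ha' : (x : ℚ) ^ 2 = (a : ℚ) ^ 2 := by exact_mod_cast ha
      rw [ha']
      have h' : p = 3 * a ^ 2 + 14 * c ^ 2 := by exact_mod_cast h
      have hx : a ≤ 2 := by
        by_contra h1
        have : 3 ≤ a := by omega
        nlinarith [Nat.zero_le (c ^ 2)]
      have hy : c ≤ 1 := by
        by_contra h1
        have : 2 ≤ c := by omega
        nlinarith [Nat.zero_le (a ^ 2)]
      interval_cases a <;> interval_cases c <;> norm_num at h' <;> subst h' <;> first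
        | (exfalso; omega)
        | (exfalso; revert hpp; norm_num; done)
        | exact cong_of _ hpp h2 s30_17 (by norm_num)
    · exact cong_of p hpp h2 (F7.big3 h3 hpb hP (x := x) (y := y) (by rw [h]; ring)) (by push_cast; ring)
  · intro h5 _ _ x y h
    have hpb := n7 1 (by norm_num) h5
    rcases Nat.lt_or_ge p 26 with hP | hP
    · obtain ⟨a, ha⟩ := nat_sq x
      obtain ⟨c, hc'⟩ := nat_sq y
      rw [ha, hc'] at h
      have ha' : (x : ℚ) ^ 2 = (a : ℚ) ^ 2 := by exact_mod_cast ha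
      rw [ha']
      have h' : p = 2 * a ^ 2 + 21 * c ^ 2 := by exact_mod_cast h
      have hx : a ≤ 3 := by
        by_contra h1
        have : 4 ≤ a := by omega
        nlinarith [Nat.zero_le (c ^ 2)]
      have hy : c ≤ 1 := by
        by_contra h1
        have : 2 ≤ c := by omega
        nlinarith [Nat.zero_le (a ^ 2)]
      interval_cases a <;> interval_cases c <;> norm_num at h' <;> subst h' <;> first
        | (exfalso; omega)
        | (exfalso; revert hpp; norm_num; done)
        | exact cong_of _ hpp h2 s30_23 (by norm_num)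
    · exact cong_of p hpp h2 (F7.big2 h3 hpb hP (x := x) (y := y) (by rw [h]; ring)) (by push_cast; ring)
  · intro _ _ h5 x y h
    have hpb := n7 (-1) (by norm_num) h5
    obtain ⟨z, rfl⟩ : ∃ z, x = 2 * z := by
      refine ⟨x / 2, ?_⟩
      rcases Int.emod_two_eq_zero_or_one x with hx | hx
      · omega
      · exfalso
        obtain ⟨z, rfl⟩ : ∃ z, x = 2 * z + 1 := ⟨x / 2, by omega⟩
        have : 2 * (p : ℤ) = 2 * (6 * z ^ 2 + 6 * z + 1 + 7 * y ^ 2) + 1 := by rw [h]; ring
        omega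
    have h : (p : ℤ) = 6 * z ^ 2 + 7 * y ^ 2 := by linarith
    rcases Nat.lt_or_ge p 26 with hP | hP
    · obtain ⟨a, ha⟩ := nat_sq z
      obtain ⟨c, hc'⟩ := nat_sq y
      rw [ha, hc'] at h
      have ha' : ((2 * z : ℤ) : ℚ) ^ 2 = 4 * (a : ℚ) ^ 2 := by
        have : (z : ℚ) ^ 2 = (a : ℚ) ^ 2 := by exact_mod_cast ha
        rw [← this]; push_cast; ring
      rw [ha']
      have h' : p = 6 * a ^ 2 + 7 * c ^ 2 := by exact_mod_cast h
      have hx : a ≤ 2 := by
        by_contra h1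
        have : 3 ≤ a := by omega
        nlinarith [Nat.zero_le (c ^ 2)]
      have hy : c ≤ 1 := by
        by_contra h1
        have : 2 ≤ c := by omega
        nlinarith [Nat.zero_le (a ^ 2)]
      interval_cases a <;> interval_cases c <;> norm_num at h' <;> subst h' <;> first
        | (exfalso; omega)
        | (exfalso; revert hpp; norm_num; done)
        | exact cong_of _ hpp h2 s30_13 (by norm_num)
    · exact cong_of p hpp h2 (F7.big6 h3 hpb hP (x := z) (y := y) (by rw [h])) (by push_cast; ring)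
  · intro hl
    have hpb : p ≠ 7 := by
      rintro rfl
      have h0 : legendreSym 7 (-42) = 0 := (legendreSym.eq_zero_iff 7 (-42)).mpr z7
      rw [h0] at hl
      norm_num at hl
    by_cases h5 : p = 5
    · subst h5
      exact cong_of _ hpp h2 s30_5 (by norm_num)
    · exact cong_of p hpp h2 (F7.bigz h3 hpb h5 (by norm_num at hl ⊢; exact hl)) (by norm_num)

end Pool.Agent.Results.MP_4af24b_nt.EighteenThirty
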